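import Pool.Agent.MP_400b40_lc.Defs

-- part MP_400b40_lc.Frames
section

/-!
The frames `F(a,g)`: points `0` (twin), `1` (extra dead end) and the spine `2, …, a+g+4`.
-/

namespace Pool.Agent.MP_400b40_lc

open Classical

/-- Kripke semantics on a frame with points in `ℕ`. -/
def Sat (R : ℕ → ℕ → Prop) (V : ℕ → ℕ → Prop) : Fm → ℕ → Prop
  | .var n, x => V n x
  | .top, _ => True
  | .bot, _ => False
  | .neg a, x => ¬ Sat R V a x
  | .and a b, x => Sat R V a x ∧ Sat R V b x
  | .or a b, x => Sat R V a x ∨ Sat R V b x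
  | .imp a b, x => Sat R V a x → Sat R V b x
  | .box a, x => ∀ y, R x y → Sat R V a y

/-- The accessibility relation of the frame `F(a,g)`. -/
def Rel (a g x y : ℕ) : Prop :=
  (2 ≤ y ∧ y < x ∧ x ≤ a + g + 4) ∨ (x = 0 ∧ 2 ≤ y ∧ y ≤ a + 2) ∨
    (y = 0 ∧ a + 3 < x ∧ x ≤ a + g + 4) ∨ (y = 1 ∧ x = a + g + 4)

/-- The height of a point. -/
def ht (a x : ℕ) : ℕ := if x = 0 then a + 1 else x - 2

def Valid (a g : ℕ) (φ : Fm) : Prop := ∀ V x, x ≤ a + g + 4 → Sat (Rel a g) V φ x

/-- The logic of the frames `F(a,g)` with `S a g`. -/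
def Log (S : ℕ → ℕ → Prop) : Set Fm := {φ | ∀ a g, S a g → Valid a g φ}

lemma sat_classical (R V) (x : ℕ) (φ : Fm) :
    φ.classical (fun n => V n x) (fun a => ∀ y, R x y → Sat R V a y) ↔ Sat R V φ x := by
  induction φ <;> simp_all [Fm.classical, Sat]

lemma sat_subst (R V) (σ : ℕ → Fm) (φ : Fm) :
    ∀ x, Sat R V (φ.subst σ) x ↔ Sat R (fun n y => Sat R V (σ n) y) φ x := by
  induction φ <;> simp_all [Fm.subst, Sat]

lemma rel_le {a g x y : ℕ} (h : Rel a g x y) : y ≤ a + g + 4 := by
  unfold Rel at h; omega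

lemma rel_trans {a g x y z : ℕ} (h : Rel a g x y) (h' : Rel a g y z) : Rel a g x z := by
  unfold Rel at *; omega

lemma rel_ht {a g x y : ℕ} (h : Rel a g x y) : ht a y < ht a x := by
  unfold Rel at h; unfold ht; split_ifs <;> omega

lemma rel_exists {a g x j : ℕ} (hx : x ≤ a + g + 4) (hj : j < ht a x) :
    Rel a g x (j + 2) ∧ ht a (j + 2) = j := by
  unfold Rel; unfold ht at *; split_ifs at * <;> omega

lemma log_normal (S) : IsNormal (Log S) where
  taut := fun φ h a g _ V x _ => (sat_classical _ _ _ _).1 (h _ _)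
  dist := fun a g _ V x _ => by
    simp only [Sat]
    intro h1 h2 y hy
    exact h1 y hy (h2 y hy)
  mp := fun φ ψ h1 h2 a g hS V x hx => h2 a g hS V x hx (h1 a g hS V x hx)
  nec := fun φ h a g hS V x _ y hy => h a g hS V y (rel_le hy)
  subst := fun σ φ h a g hS V x hx => (sat_subst _ _ _ _ _).2 (h a g hS _ x hx)

lemma four_mem (S) : Fm.imp (.box (.var 0)) (.box (.box (.var 0))) ∈ Log S :=
  fun a g _ V x _ => by
    simp only [Sat]
    intro h y hy z hz
    exact h z (rel_trans hy hz)

lemma lob_mem (S) :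
    Fm.imp (.box (.imp (.box (.var 0)) (.var 0))) (.box (.var 0)) ∈ Log S :=
  fun a g _ V x _ => by
    simp only [Sat]
    intro h
    have key : ∀ n y, ht a y = n → Rel a g x y → V 0 y := by
      intro n
      induction n using Nat.strong_induction_on with
      | _ n ih =>
        intro y hn hy
        exact h y hy fun z hz => ih _ (hn ▸ rel_ht hz) z rfl (rel_trans hy hz)
    exact fun y hy => key _ y rfl hy

lemma K_subset (S) : logicK ⊆ Log S := Set.sInter_subset_of_mem (log_normal S)

lemma K4_subset (S) : logicK4 ⊆ Log S := Set.sInter_subset_of_mem ⟨log_normal S, four_mem S⟩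

lemma GL_subset (S) : logicGL ⊆ Log S := Set.sInter_subset_of_mem ⟨log_normal S, lob_mem S⟩

/-! ### Deleting a point of the spine -/

/-- The formulas `ψ` such that `box ψ` is a subformula. -/
def boxed : Fm → List Fm
  | .var _ => []
  | .top => []
  | .bot => []
  | .neg a => boxed a
  | .and a b => boxed a ++ boxed b
  | .or a b => boxed a ++ boxed b
  | .imp a b => boxed a ++ boxed b
  | .box a => a :: boxed a

lemma add_le_pair' (a b : ℕ) : a + b ≤ 6 * Nat.pair a b := by
  have := Nat.left_le_pair a b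
  have := Nat.right_le_pair a b
  omega

lemma boxed_length (φ : Fm) : (boxed φ).length ≤ φ.code := by
  induction φ with
  | var n => simp [boxed]
  | top => simp [boxed]
  | bot => simp [boxed]
  | neg a ih => simp only [boxed, Fm.code]; omega
  | and a b iha ihb =>
    simp only [boxed, Fm.code, List.length_append]; have := add_le_pair' a.code b.code; omega
  | or a b iha ihb =>
    simp only [boxed, Fm.code, List.length_append]; have := add_le_pair' a.code b.code; omega
  | imp a b iha ihb =>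
    simp only [boxed, Fm.code, List.length_append]; have := add_le_pair' a.code b.code; omega
  | box a ih => simp only [boxed, Fm.code, List.length_cons]; omega

def skip (j x : ℕ) : ℕ := if x < j then x else x + 1

lemma skip_cases (j x : ℕ) : (x < j ∧ skip j x = x) ∨ (j ≤ x ∧ skip j x = x + 1) := by
  unfold skip; split_ifs <;> omega

lemma exists_skip {j y : ℕ} (h : y ≠ j) : ∃ z, skip j z = y := by
  by_cases hy : y < j
  · exact ⟨y, by simp [skip, hy]⟩
  · refine ⟨y - 1, ?_⟩
    unfold skip; split_ifs <;> omega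

lemma sat_skip (R R' : ℕ → ℕ → Prop) (j : ℕ) (hR : ∀ x y, R' x y ↔ R (skip j x) (skip j y))
    (V : ℕ → ℕ → Prop) (φ : Fm)
    (hred : ∀ ψ ∈ boxed φ, ∀ x, R x j → ¬ Sat R V ψ j → ∃ y, y ≠ j ∧ R x y ∧ ¬ Sat R V ψ y) :
    ∀ x, Sat R' (fun n y => V n (skip j y)) φ x ↔ Sat R V φ (skip j x) := by
  induction φ with
  | var n => intro x; rfl
  | top => intro x; rfl
  | bot => intro x; rfl
  | neg a ih => intro x; simp only [Sat]; rw [ih hred]
  | and a b iha ihb =>
    intro x; simp only [Sat]
    rw [iha fun ψ h => hred ψ (by simp [boxed, h]), ihb fun ψ h => hred ψ (by simp [boxed, h])]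
  | or a b iha ihb =>
    intro x; simp only [Sat]
    rw [iha fun ψ h => hred ψ (by simp [boxed, h]), ihb fun ψ h => hred ψ (by simp [boxed, h])]
  | imp a b iha ihb =>
    intro x; simp only [Sat]
    rw [iha fun ψ h => hred ψ (by simp [boxed, h]), ihb fun ψ h => hred ψ (by simp [boxed, h])]
  | box a ih =>
    intro x
    have ih' := ih fun ψ h => hred ψ (by simp [boxed, h])
    simp only [Sat]
    constructor
    · intro h
      have h1 : ∀ y, y ≠ j → R (skip j x) y → Sat R V a y := by
        intro y hy hxy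
        obtain ⟨z, rfl⟩ := exists_skip hy
        exact (ih' z).1 (h z ((hR _ _).2 hxy))
      intro y hxy
      by_cases hy : y = j
      · subst hy
        by_contra hn
        obtain ⟨z, hz, hxz, hnz⟩ := hred a (by simp [boxed]) _ hxy hn
        exact hnz (h1 z hz hxz)
      · exact h1 y hy hxy
    · intro h y hxy
      exact (ih' y).2 (h _ ((hR _ _).1 hxy))

lemma exists_redundant (a g : ℕ) (V : ℕ → ℕ → Prop) (φ : Fm) (x₀ lo n : ℕ) (hlo : 2 ≤ lo)
    (hn : φ.code + 2 ≤ n) :
    ∃ j, lo ≤ j ∧ j < lo + n ∧ j ≠ x₀ ∧ ∀ ψ ∈ boxed φ, ∀ x, Rel a g x j →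
      ¬ Sat (Rel a g) V ψ j → ∃ y, y ≠ j ∧ Rel a g x y ∧ ¬ Sat (Rel a g) V ψ y := by
  let first : Fm → ℕ := fun ψ => sInf {y | 2 ≤ y ∧ ¬ Sat (Rel a g) V ψ y}
  let bad : Finset ℕ := (x₀ :: (boxed φ).map first).toFinset
  have hcard : bad.card < (Finset.Ico lo (lo + n)).card := by
    have h1 : bad.card ≤ (x₀ :: (boxed φ).map first).length := List.toFinset_card_le _
    have h2 := boxed_length φ
    simp only [List.length_cons, List.length_map] at h1
    simp only [Nat.card_Ico]
    omega
  obtain ⟨j, hj, hjb⟩ := Finset.exists_mem_notMem_of_card_lt_card hcard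
  rw [Finset.mem_Ico] at hj
  simp only [bad, List.mem_toFinset, List.mem_cons, List.mem_map, not_or, not_exists,
    not_and] at hjb
  refine ⟨j, hj.1, hj.2, hjb.1, fun ψ hψ x hx hn => ?_⟩
  have hmem : j ∈ {y | 2 ≤ y ∧ ¬ Sat (Rel a g) V ψ y} := ⟨by omega, hn⟩
  have h1 : first ψ ≤ j := Nat.sInf_le hmem
  have h2 : first ψ ∈ {y | 2 ≤ y ∧ ¬ Sat (Rel a g) V ψ y} := Nat.sInf_mem ⟨j, hmem⟩
  have h3 := hjb.2 ψ hψ
  refine ⟨first ψ, h3, ?_, h2.2⟩
  have h4 := h2.1
  have h5 := hj.1
  unfold Rel at *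
  omega

lemma valid_succ_lower {a g : ℕ} {φ : Fm} (ha : φ.code ≤ a) (h : Valid a g φ) :
    Valid (a + 1) g φ := by
  intro V x hx
  obtain ⟨j, h1, h2, h3, h4⟩ := exists_redundant (a + 1) g V φ x 2 (a + 2) le_rfl (by omega)
  obtain ⟨z, rfl⟩ := exists_skip h3.symm
  refine (sat_skip (Rel (a + 1) g) (Rel a g) j ?_ V φ h4 z).1 (h _ z ?_)
  · intro x y
    have e1 := skip_cases j x
    have e2 := skip_cases j y
    unfold Rel
    omega
  · unfold skip at hx h3
    split_ifs at hx h3 <;> omega

lemma valid_succ_upper {a g : ℕ} {φ : Fm} (hg : φ.code + 1 ≤ g) (h : Valid a g φ) :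
    Valid a (g + 1) φ := by
  intro V x hx
  obtain ⟨j, h1, h2, h3, h4⟩ :=
    exists_redundant a (g + 1) V φ x (a + 4) (g + 1) (by omega) (by omega)
  obtain ⟨z, rfl⟩ := exists_skip h3.symm
  refine (sat_skip (Rel a (g + 1)) (Rel a g) j ?_ V φ h4 z).1 (h _ z ?_)
  · intro x y
    have e1 := skip_cases j x
    have e2 := skip_cases j y
    unfold Rel
    omega
  · unfold skip at hx h3
    split_ifs at hx h3 <;> omega

lemma valid_lower {a a' g : ℕ} {φ : Fm} (ha : φ.code ≤ a) (hle : a ≤ a') (h : Valid a g φ) :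
    Valid a' g φ := by
  induction hle with
  | refl => exact h
  | step hle ih => exact valid_succ_lower (ha.trans hle) ih

lemma valid_upper {a g g' : ℕ} {φ : Fm} (hg : φ.code + 1 ≤ g) (hle : g ≤ g') (h : Valid a g φ) :
    Valid a g' φ := by
  induction hle with
  | refl => exact h
  | step hle ih => exact valid_succ_upper (hg.trans hle) ih

/-- The frames that are used: `H c g` says that machine `c` has halted within `g` steps. -/
def Sel (H : ℕ → ℕ → Prop) (a g : ℕ) : Prop := g % 2 = 0 ∧ (a % 2 = 1 → ¬ H (a / 2) g)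

lemma mem_log_iff {H : ℕ → ℕ → Prop} (hH : ∀ c g g', g ≤ g' → H c g → H c g') (φ : Fm) :
    φ ∈ Log (Sel H) ↔
      ∀ a < 2 * φ.code + 3, ∀ g < 2 * φ.code + 3, Sel H a g → Valid a g φ := by
  refine ⟨fun h a _ g _ hS => h a g hS, fun h => ?_⟩
  have h1 : ∀ a < 2 * φ.code + 3, ∀ g, Sel H a g → Valid a g φ := by
    intro a ha g hS
    by_cases hg : g < 2 * φ.code + 3
    · exact h a ha g hg hS
    · refine valid_upper (g := 2 * φ.code + 2) (by omega) (by omega) (h a ha _ (by omega) ?_)
      exact ⟨by omega, fun h' h'' => hS.2 h' (hH _ _ _ (by omega) h'')⟩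
  intro a g hS
  by_cases ha : a < 2 * φ.code + 3
  · exact h1 a ha g hS
  · refine valid_lower (a := 2 * φ.code + 2) (by omega) (by omega) (h1 _ (by omega) g ?_)
    exact ⟨hS.1, fun h' => by omega⟩

/-! ### The implications and their interpolants -/

/-- `□^n ⊥`. -/
def bb : ℕ → Fm
  | 0 => .bot
  | n + 1 => .box (bb n)

/-- height exactly `n`. -/
def hx (n : ℕ) : Fm := .and (bb (n + 1)) (.neg (bb n))

def dia (φ : Fm) : Fm := .neg (.box (.neg φ))

/-- two points of height `n` are visible. -/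
def two (n p : ℕ) : Fm := .and (dia (.and (hx n) (.var p))) (dia (.and (hx n) (.neg (.var p))))

def alpha (a p : ℕ) : Fm := .and (two 0 p) (two (a + 1) p)

lemma sat_bb (a g V) (n : ℕ) : ∀ x, x ≤ a + g + 4 → (Sat (Rel a g) V (bb n) x ↔ ht a x < n) := by
  induction n with
  | zero => intro x _; simp [bb, Sat]
  | succ n ih =>
    intro x hx
    simp only [bb, Sat]
    constructor
    · intro h
      by_contra hc
      have h1 := rel_exists (j := n) hx (by omega)
      have := (ih _ (rel_le h1.1)).1 (h _ h1.1)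
      omega
    · intro h y hy
      have := rel_ht hy
      exact (ih _ (rel_le hy)).2 (by omega)

lemma sat_hx (a g V) (n x : ℕ) (h : x ≤ a + g + 4) :
    Sat (Rel a g) V (hx n) x ↔ ht a x = n := by
  simp only [hx, Sat, sat_bb a g V _ x h]; omega

lemma sat_two (a g V) (n p x : ℕ) :
    Sat (Rel a g) V (two n p) x ↔
      (∃ y, Rel a g x y ∧ ht a y = n ∧ V p y) ∧ (∃ y, Rel a g x y ∧ ht a y = n ∧ ¬ V p y) := by
  simp only [two, dia, Sat, not_forall, not_not]
  constructor
  · rintro ⟨⟨y, hy, h1, h2⟩, ⟨z, hz, h3, h4⟩⟩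
    exact ⟨⟨y, hy, (sat_hx _ _ _ _ _ (rel_le hy)).1 h1, h2⟩,
      ⟨z, hz, (sat_hx _ _ _ _ _ (rel_le hz)).1 h3, h4⟩⟩
  · rintro ⟨⟨y, hy, h1, h2⟩, ⟨z, hz, h3, h4⟩⟩
    exact ⟨⟨y, hy, (sat_hx _ _ _ _ _ (rel_le hy)).2 h1, h2⟩,
      ⟨z, hz, (sat_hx _ _ _ _ _ (rel_le hz)).2 h3, h4⟩⟩

lemma alpha_forces {a g V b p x} (h : Sat (Rel a g) V (alpha b p) x) :
    a = b ∧ x = a + g + 4 := by
  simp only [alpha, Sat, sat_two] at h
  obtain ⟨⟨⟨y, hy, h1, h2⟩, ⟨z, hz, h3, h4⟩⟩, ⟨⟨y', hy', h1', h2'⟩, ⟨z', hz', h3', h4'⟩⟩⟩ := h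
  have e1 : y ≠ z := fun e => h4 (e ▸ h2)
  have e2 : y' ≠ z' := fun e => h4' (e ▸ h2')
  unfold Rel at *
  unfold ht at *
  split_ifs at * <;> omega

lemma alpha_sat (a g p : ℕ) :
    Sat (Rel a g) (fun _ y => y ≤ 1) (alpha a p) (a + g + 4) := by
  simp only [alpha, Sat, sat_two]
  refine ⟨⟨⟨1, ?_, ?_, ?_⟩, ⟨2, ?_, ?_, ?_⟩⟩, ⟨⟨0, ?_, ?_, ?_⟩, ⟨a + 3, ?_, ?_, ?_⟩⟩⟩ <;>
    simp [Rel, ht]

/-- odd height below `2 n`. -/
def oddBelow : ℕ → Fm
  | 0 => .bot
  | n + 1 => .or (oddBelow n) (hx (2 * n + 1))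

lemma sat_oddBelow (a g V) (n x : ℕ) (h : x ≤ a + g + 4) :
    Sat (Rel a g) V (oddBelow n) x ↔ ht a x % 2 = 1 ∧ ht a x < 2 * n := by
  induction n with
  | zero => simp [oddBelow, Sat]
  | succ n ih => simp only [oddBelow, Sat, ih, sat_hx a g V _ x h]; omega

lemma vars_bb (n : ℕ) : (bb n).vars = ∅ := by
  induction n <;> simp_all [bb, Fm.vars]

lemma vars_hx (n : ℕ) : (hx n).vars = ∅ := by simp [hx, Fm.vars, vars_bb]

lemma vars_oddBelow (n : ℕ) : (oddBelow n).vars = ∅ := by
  induction n <;> simp_all [oddBelow, Fm.vars, vars_hx]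

lemma vars_alpha (a p : ℕ) : (alpha a p).vars = {p} := by
  simp [alpha, two, dia, Fm.vars, vars_hx]

/-- Truth of a variable-free formula at a point of height `n`. -/
def Cl : Fm → ℕ → Prop
  | .var _, _ => False
  | .top, _ => True
  | .bot, _ => False
  | .neg a, n => ¬ Cl a n
  | .and a b, n => Cl a n ∧ Cl b n
  | .or a b, n => Cl a n ∨ Cl b n
  | .imp a b, n => Cl a n → Cl b n
  | .box a, n => ∀ j < n, Cl a j

lemma sat_closed (a g V) (χ : Fm) (h : χ.vars = ∅) :
    ∀ x, x ≤ a + g + 4 → (Sat (Rel a g) V χ x ↔ Cl χ (ht a x)) := by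
  induction χ with
  | var n => simp [Fm.vars] at h
  | top => intro x _; rfl
  | bot => intro x _; rfl
  | neg b ih => intro x hx; simp only [Sat, Cl, ih h x hx]
  | and b c ihb ihc =>
    simp only [Fm.vars, Finset.union_eq_empty] at h
    intro x hx; simp only [Sat, Cl, ihb h.1 x hx, ihc h.2 x hx]
  | or b c ihb ihc =>
    simp only [Fm.vars, Finset.union_eq_empty] at h
    intro x hx; simp only [Sat, Cl, ihb h.1 x hx, ihc h.2 x hx]
  | imp b c ihb ihc =>
    simp only [Fm.vars, Finset.union_eq_empty] at h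
    intro x hx; simp only [Sat, Cl, ihb h.1 x hx, ihc h.2 x hx]
  | box b ih =>
    intro x hx
    simp only [Sat, Cl]
    constructor
    · intro h1 j hj
      have h2 := rel_exists hx hj
      have := (ih h _ (rel_le h2.1)).1 (h1 _ h2.1)
      rwa [h2.2] at this
    · intro h1 y hy
      exact (ih h _ (rel_le hy)).2 (h1 _ (rel_ht hy))

lemma cl_eventually (χ : Fm) : ∃ d, ∀ n, d ≤ n → (Cl χ n ↔ Cl χ d) := by
  have comb : ∀ b c : Fm, (∃ d, ∀ n, d ≤ n → (Cl b n ↔ Cl b d)) →
      (∃ d, ∀ n, d ≤ n → (Cl c n ↔ Cl c d)) →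
      ∃ d, ∀ n, d ≤ n → (Cl b n ↔ Cl b d) ∧ (Cl c n ↔ Cl c d) := by
    rintro b c ⟨d, hd⟩ ⟨e, he⟩
    refine ⟨d + e, fun n hn => ⟨?_, ?_⟩⟩
    · rw [hd n (by omega), hd (d + e) (by omega)]
    · rw [he n (by omega), he (d + e) (by omega)]
  induction χ with
  | var n => exact ⟨0, fun _ _ => Iff.rfl⟩
  | top => exact ⟨0, fun _ _ => Iff.rfl⟩
  | bot => exact ⟨0, fun _ _ => Iff.rfl⟩
  | neg b ih =>
    obtain ⟨d, hd⟩ := ih
    exact ⟨d, fun n hn => by simp only [Cl, hd n hn]⟩
  | and b c ihb ihc =>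
    obtain ⟨d, hd⟩ := comb b c ihb ihc
    exact ⟨d, fun n hn => by simp only [Cl, (hd n hn).1, (hd n hn).2]⟩
  | or b c ihb ihc =>
    obtain ⟨d, hd⟩ := comb b c ihb ihc
    exact ⟨d, fun n hn => by simp only [Cl, (hd n hn).1, (hd n hn).2]⟩
  | imp b c ihb ihc =>
    obtain ⟨d, hd⟩ := comb b c ihb ihc
    exact ⟨d, fun n hn => by simp only [Cl, (hd n hn).1, (hd n hn).2]⟩
  | box b _ =>
    by_cases h : ∀ j, Cl b j
    · exact ⟨0, fun n _ => by simp [Cl, h]⟩
    · push Not at h
      obtain ⟨j, hj⟩ := h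
      refine ⟨j + 1, fun n hn => ?_⟩
      simp only [Cl]
      exact ⟨fun h => absurd (h j (by omega)) hj, fun h => absurd (h j (by omega)) hj⟩

theorem hasInterpolant_iff {H : ℕ → ℕ → Prop} (hH : ∀ c g g', g ≤ g' → H c g → H c g') (c : ℕ) :
    HasInterpolant (Log (Sel H)) (alpha (2 * c + 1) 0) (.neg (alpha 0 1)) ↔ ∃ g, H c g := by
  constructor
  · rintro ⟨χ, hv, h1, h2⟩
    by_contra hc
    push Not at hc
    have hv' : χ.vars = ∅ := by
      simpa [Fm.vars, vars_alpha] using hv
    obtain ⟨d, hd⟩ := cl_eventually χ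
    have hS1 : Sel H (2 * c + 1) (2 * d) := ⟨by omega, fun _ => hc _ ∘ (by
      rw [show (2 * c + 1) / 2 = c by omega]; exact id)⟩
    have hS2 : Sel H 0 (2 * d) := ⟨by omega, fun h => by omega⟩
    have e1 := h1 _ _ hS1 (fun _ y => y ≤ 1) _ le_rfl (alpha_sat _ _ _)
    have e2 : ¬ Sat (Rel 0 (2 * d)) (fun _ y => y ≤ 1) χ (0 + 2 * d + 4) :=
      fun h => h2 _ _ hS2 (fun _ y => y ≤ 1) _ le_rfl h (alpha_sat _ _ _)
    rw [sat_closed _ _ _ _ hv' _ le_rfl] at e1 e2
    rw [hd _ (by simp only [ht]; rw [if_neg (by omega)]; omega)] at e1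
    rw [hd _ (by simp only [ht]; rw [if_neg (by omega)]; omega)] at e2
    exact e2 e1
  · rintro ⟨g₀, hg₀⟩
    refine ⟨oddBelow (c + g₀ + 2), by simp [vars_oddBelow], ?_, ?_⟩
    · intro a g hS V x hx h
      obtain ⟨rfl, rfl⟩ := alpha_forces h
      rw [sat_oddBelow _ _ _ _ _ hx]
      have h1 := hS.1
      have h2 : g < g₀ := by
        by_contra hc
        refine hS.2 (by omega) ?_
        rw [show (2 * c + 1) / 2 = c by omega]
        exact hH _ _ _ (by omega) hg₀
      simp only [ht]; rw [if_neg (by omega)]; omega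
    · intro a g hS V x hx h h'
      obtain ⟨rfl, rfl⟩ := alpha_forces h'
      rw [sat_oddBelow _ _ _ _ _ hx] at h
      have h1 := hS.1
      unfold ht at h; split_ifs at h <;> omega

end Pool.Agent.MP_400b40_lc

end

-- part MP_400b40_lc.Compute
section

/-!
Model checking on the frames `F(a,g)` is primitive recursive.
-/

namespace Pool.Agent.MP_400b40_lc

open Classical

lemma code_surj (n : ℕ) : ∃ φ : Fm, φ.code = n := by
  induction n using Nat.strong_induction_on with
  | _ n ih =>
    by_cases h0 : n = 0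
    · exact ⟨.bot, h0.symm⟩
    by_cases h1 : n = 1
    · exact ⟨.top, h1.symm⟩
    obtain ⟨k, hk⟩ : ∃ k, k = (n - 2) / 6 := ⟨_, rfl⟩
    have hl := Nat.unpair_left_le k
    have hr := Nat.unpair_right_le k
    obtain ⟨a, ha⟩ := ih k (by omega)
    obtain ⟨b, hb⟩ := ih k.unpair.1 (by omega)
    obtain ⟨c, hc⟩ := ih k.unpair.2 (by omega)
    have hp : Nat.pair b.code c.code = k := by rw [hb, hc, Nat.pair_unpair]
    have : n = 6 * k + 2 ∨ n = 6 * k + 3 ∨ n = 6 * k + 4 ∨ n = 6 * k + 5 ∨ n = 6 * k + 6 ∨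
      n = 6 * k + 7 := by omega
    rcases this with h | h | h | h | h | h
    · exact ⟨.var k, h.symm⟩
    · exact ⟨.neg a, by rw [Fm.code, ha, h]⟩
    · exact ⟨.box a, by rw [Fm.code, ha, h]⟩
    · exact ⟨.and b c, by rw [Fm.code, hp, h]⟩
    · exact ⟨.or b c, by rw [Fm.code, hp, h]⟩
    · exact ⟨.imp b c, by rw [Fm.code, hp, h]⟩

lemma code_inj : ∀ φ ψ : Fm, φ.code = ψ.code → φ = ψ := by
  intro φ
  induction φ with
  | var n => intro ψ h; cases ψ <;> simp only [Fm.code] at h <;> first | omega | (congr 1; omega)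
  | top => intro ψ h; cases ψ <;> simp only [Fm.code] at h <;> first | omega | rfl
  | bot => intro ψ h; cases ψ <;> simp only [Fm.code] at h <;> first | omega | rfl
  | neg a ih =>
    intro ψ h; cases ψ <;> simp only [Fm.code] at h <;>
      first | omega | (congr 1; exact ih _ (by omega))
  | box a ih =>
    intro ψ h; cases ψ <;> simp only [Fm.code] at h <;>
      first | omega | (congr 1; exact ih _ (by omega))
  | and a b iha ihb =>
    intro ψ h; cases ψ <;> simp only [Fm.code] at h <;> try omega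
    rename_i c d
    have := Nat.pair_eq_pair.1 (show Nat.pair a.code b.code = Nat.pair c.code d.code by omega)
    rw [iha _ this.1, ihb _ this.2]
  | or a b iha ihb =>
    intro ψ h; cases ψ <;> simp only [Fm.code] at h <;> try omega
    rename_i c d
    have := Nat.pair_eq_pair.1 (show Nat.pair a.code b.code = Nat.pair c.code d.code by omega)
    rw [iha _ this.1, ihb _ this.2]
  | imp a b iha ihb =>
    intro ψ h; cases ψ <;> simp only [Fm.code] at h <;> try omega
    rename_i c d
    have := Nat.pair_eq_pair.1 (show Nat.pair a.code b.code = Nat.pair c.code d.code by omega)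
    rw [iha _ this.1, ihb _ this.2]

noncomputable def dec (n : ℕ) : Fm := (code_surj n).choose

lemma code_dec (n : ℕ) : (dec n).code = n := (code_surj n).choose_spec

lemma dec_code (φ : Fm) : dec φ.code = φ := code_inj _ _ (code_dec _)

/-- The valuation coded by the number `v`. -/
def val (v i x : ℕ) : Prop := v / 2 ^ Nat.pair i x % 2 = 1

lemma sat_congr (a g n : ℕ) (V V' : ℕ → ℕ → Prop)
    (h : ∀ i ≤ n, ∀ x ≤ a + g + 4, V i x ↔ V' i x) (φ : Fm) (hφ : φ.code ≤ n) :
    ∀ x ≤ a + g + 4, Sat (Rel a g) V φ x ↔ Sat (Rel a g) V' φ x := by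
  induction φ with
  | var i => intro x hx; exact h i (by simp only [Fm.code] at hφ; omega) x hx
  | top => intro x _; rfl
  | bot => intro x _; rfl
  | neg b ih =>
    intro x hx; simp only [Fm.code] at hφ; simp only [Sat]; rw [ih (by omega) x hx]
  | and b c ihb ihc =>
    intro x hx; simp only [Fm.code] at hφ; simp only [Sat]
    have := add_le_pair' b.code c.code
    rw [ihb (by omega) x hx, ihc (by omega) x hx]
  | or b c ihb ihc =>
    intro x hx; simp only [Fm.code] at hφ; simp only [Sat]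
    have := add_le_pair' b.code c.code
    rw [ihb (by omega) x hx, ihc (by omega) x hx]
  | imp b c ihb ihc =>
    intro x hx; simp only [Fm.code] at hφ; simp only [Sat]
    have := add_le_pair' b.code c.code
    rw [ihb (by omega) x hx, ihc (by omega) x hx]
  | box b ih =>
    intro x _; simp only [Fm.code] at hφ; simp only [Sat]
    exact forall_congr' fun y => forall_congr' fun hy => ih (by omega) y (rel_le hy)

lemma pair_le_pair' {a b c d : ℕ} (h1 : a ≤ c) (h2 : b ≤ d) : Nat.pair a b ≤ Nat.pair c d := by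
  have e1 : Nat.pair a b ≤ Nat.pair c b := by
    rcases h1.lt_or_eq with h | h
    · exact (Nat.pair_lt_pair_left _ h).le
    · rw [h]
  have e2 : Nat.pair c b ≤ Nat.pair c d := by
    rcases h2.lt_or_eq with h | h
    · exact (Nat.pair_lt_pair_right _ h).le
    · rw [h]
  exact e1.trans e2

lemma valid_iff (a g : ℕ) (φ : Fm) :
    Valid a g φ ↔ ∀ v < 2 ^ (Nat.pair φ.code (a + g + 4) + 1), ∀ x < a + g + 5,
      Sat (Rel a g) (val v) φ x := by
  refine ⟨fun h v _ x hx => h _ x (by omega), fun h V x hx => ?_⟩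
  let f : Fin (Nat.pair φ.code (a + g + 4) + 1) → Bool :=
    fun i => decide (V i.1.unpair.1 i.1.unpair.2)
  refine (sat_congr a g φ.code _ _ ?_ φ le_rfl x hx).1
    (h (Nat.ofBits f) (Nat.ofBits_lt_two_pow f) x (by omega))
  intro i hi y hy
  have hlt : Nat.pair i y < Nat.pair φ.code (a + g + 4) + 1 :=
    Nat.lt_succ_of_le (pair_le_pair' hi hy)
  have := Nat.testBit_ofBits_lt f _ hlt
  rw [Nat.testBit_eq_decide_div_mod_eq] at this
  simp only [f, Nat.unpair_pair, decide_eq_decide] at this
  exact this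

/-- The row of truth values of the formula with code `n`. -/
noncomputable def row (p : ℕ × ℕ × ℕ) (n : ℕ) : List Bool :=
  (List.range (p.1 + p.2.1 + 5)).map fun x => decide (Sat (Rel p.1 p.2.1) (val p.2.2) (dec n) x)

def look (T : List (List Bool)) (k x : ℕ) : Prop := (T.getD k []).getD x false = true

def Step (p : ℕ × ℕ × ℕ) (T : List (List Bool)) (x : ℕ) : Prop :=
  T.length = 1 ∨ (2 ≤ T.length ∧
    (((T.length - 2) % 6 = 0 ∧ val p.2.2 ((T.length - 2) / 6) x) ∨
     ((T.length - 2) % 6 = 1 ∧ ¬ look T ((T.length - 2) / 6) x) ∨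
     ((T.length - 2) % 6 = 2 ∧ ∀ y ∈ List.range (p.1 + p.2.1 + 5),
        ¬ Rel p.1 p.2.1 x y ∨ look T ((T.length - 2) / 6) y) ∨
     ((T.length - 2) % 6 = 3 ∧
        (look T ((T.length - 2) / 6).unpair.1 x ∧ look T ((T.length - 2) / 6).unpair.2 x)) ∨
     ((T.length - 2) % 6 = 4 ∧
        (look T ((T.length - 2) / 6).unpair.1 x ∨ look T ((T.length - 2) / 6).unpair.2 x)) ∨
     ((T.length - 2) % 6 = 5 ∧
        (¬ look T ((T.length - 2) / 6).unpair.1 x ∨ look T ((T.length - 2) / 6).unpair.2 x))))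

lemma row_getD (p : ℕ × ℕ × ℕ) (φ : Fm) {x : ℕ} (hx : x < p.1 + p.2.1 + 5) :
    (row p φ.code).getD x false = true ↔ Sat (Rel p.1 p.2.1) (val p.2.2) φ x := by
  simp [row, List.getD_eq_getElem?_getD, hx, dec_code]

lemma look_iff (p : ℕ × ℕ × ℕ) (n : ℕ) (φ : Fm) (hφ : φ.code < n) {x : ℕ}
    (hx : x < p.1 + p.2.1 + 5) :
    look ((List.range n).map (row p)) φ.code x ↔ Sat (Rel p.1 p.2.1) (val p.2.2) φ x := by
  rw [← row_getD p φ hx]
  simp [look, List.getD_eq_getElem?_getD, hφ]

lemma step_iff (p : ℕ × ℕ × ℕ) (φ : Fm) {x : ℕ} (hx : x < p.1 + p.2.1 + 5) :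
    Step p ((List.range φ.code).map (row p)) x ↔ Sat (Rel p.1 p.2.1) (val p.2.2) φ x := by
  have hlen : ((List.range φ.code).map (row p)).length = φ.code := by simp
  unfold Step
  rw [hlen]
  cases φ with
  | bot => simp [Fm.code, Sat]
  | top => simp [Fm.code, Sat]
  | var i =>
    have e1 : ((Fm.var i).code - 2) % 6 = 0 := by simp only [Fm.code]; omega
    have e2 : ((Fm.var i).code - 2) / 6 = i := by simp only [Fm.code]; omega
    have e3 : (Fm.var i).code ≠ 1 := by simp only [Fm.code]; omega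
    have e4 : 2 ≤ (Fm.var i).code := by simp only [Fm.code]; omega
    simp [e1, e2, e3, e4, Sat]
  | neg b =>
    have e1 : ((Fm.neg b).code - 2) % 6 = 1 := by simp only [Fm.code]; omega
    have e2 : ((Fm.neg b).code - 2) / 6 = b.code := by simp only [Fm.code]; omega
    have e3 : (Fm.neg b).code ≠ 1 := by simp only [Fm.code]; omega
    have e4 : 2 ≤ (Fm.neg b).code := by simp only [Fm.code]; omega
    have e5 := look_iff p (Fm.neg b).code b (by simp only [Fm.code]; omega) hx
    simp [e1, e2, e3, e4, e5, Sat]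
  | box b =>
    have e1 : ((Fm.box b).code - 2) % 6 = 2 := by simp only [Fm.code]; omega
    have e2 : ((Fm.box b).code - 2) / 6 = b.code := by simp only [Fm.code]; omega
    have e3 : (Fm.box b).code ≠ 1 := by simp only [Fm.code]; omega
    have e4 : 2 ≤ (Fm.box b).code := by simp only [Fm.code]; omega
    have e5 : (∀ y ∈ List.range (p.1 + p.2.1 + 5), ¬ Rel p.1 p.2.1 x y ∨
        look ((List.range (Fm.box b).code).map (row p)) b.code y) ↔
        Sat (Rel p.1 p.2.1) (val p.2.2) (Fm.box b) x := by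
      simp only [Sat, List.mem_range]
      constructor
      · intro h y hy
        have hy' : y < p.1 + p.2.1 + 5 := Nat.lt_succ_of_le (rel_le hy)
        rcases h y hy' with h' | h'
        · exact absurd hy h'
        · exact (look_iff p _ b (by simp only [Fm.code]; omega) hy').1 h'
      · intro h y hy'
        by_cases hy : Rel p.1 p.2.1 x y
        · exact Or.inr ((look_iff p _ b (by simp only [Fm.code]; omega) hy').2 (h y hy))
        · exact Or.inl hy
    rw [e1, e2, e5]
    simp [e3, e4]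
  | and b c =>
    have e0 := Nat.left_le_pair b.code c.code
    have e0' := Nat.right_le_pair b.code c.code
    have e1 : ((Fm.and b c).code - 2) % 6 = 3 := by simp only [Fm.code]; omega
    have e2 : ((Fm.and b c).code - 2) / 6 = Nat.pair b.code c.code := by
      simp only [Fm.code]; omega
    have e3 : (Fm.and b c).code ≠ 1 := by simp only [Fm.code]; omega
    have e4 : 2 ≤ (Fm.and b c).code := by simp only [Fm.code]; omega
    have e5 := look_iff p (Fm.and b c).code b (by simp only [Fm.code]; omega) hx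
    have e6 := look_iff p (Fm.and b c).code c (by simp only [Fm.code]; omega) hx
    simp [e1, e2, e3, e4, e5, e6, Sat]
  | or b c =>
    have e0 := Nat.left_le_pair b.code c.code
    have e0' := Nat.right_le_pair b.code c.code
    have e1 : ((Fm.or b c).code - 2) % 6 = 4 := by simp only [Fm.code]; omega
    have e2 : ((Fm.or b c).code - 2) / 6 = Nat.pair b.code c.code := by
      simp only [Fm.code]; omega
    have e3 : (Fm.or b c).code ≠ 1 := by simp only [Fm.code]; omega
    have e4 : 2 ≤ (Fm.or b c).code := by simp only [Fm.code]; omega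
    have e5 := look_iff p (Fm.or b c).code b (by simp only [Fm.code]; omega) hx
    have e6 := look_iff p (Fm.or b c).code c (by simp only [Fm.code]; omega) hx
    simp [e1, e2, e3, e4, e5, e6, Sat]
  | imp b c =>
    have e0 := Nat.left_le_pair b.code c.code
    have e0' := Nat.right_le_pair b.code c.code
    have e1 : ((Fm.imp b c).code - 2) % 6 = 5 := by simp only [Fm.code]; omega
    have e2 : ((Fm.imp b c).code - 2) / 6 = Nat.pair b.code c.code := by
      simp only [Fm.code]; omega
    have e3 : (Fm.imp b c).code ≠ 1 := by simp only [Fm.code]; omega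
    have e4 : 2 ≤ (Fm.imp b c).code := by simp only [Fm.code]; omega
    have e5 := look_iff p (Fm.imp b c).code b (by simp only [Fm.code]; omega) hx
    have e6 := look_iff p (Fm.imp b c).code c (by simp only [Fm.code]; omega) hx
    simp [e1, e2, e3, e4, e5, e6, Sat, imp_iff_not_or]

section prim

open Primrec

variable {α : Type} [Primcodable α]

lemma prim_pow : Primrec₂ fun a b : ℕ => a ^ b := Primrec₂.unpaired'.1 Nat.Primrec.pow

lemma prim_val {v i x : α → ℕ} (hv : Primrec v) (hi : Primrec i) (hx : Primrec x) :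
    PrimrecPred fun t => val (v t) (i t) (x t) :=
  Primrec.eq.comp (nat_mod.comp (nat_div.comp hv (prim_pow.comp (const 2)
    (Primrec₂.natPair.comp hi hx))) (const 2)) (const 1)

lemma prim_look {T : α → List (List Bool)} {k x : α → ℕ} (hT : Primrec T) (hk : Primrec k)
    (hx : Primrec x) : PrimrecPred fun t => look (T t) (k t) (x t) :=
  Primrec.eq.comp ((list_getD false).comp ((list_getD []).comp hT hk) hx) (const true)

lemma prim_rel {a g x y : α → ℕ} (ha : Primrec a) (hg : Primrec g) (hx : Primrec x)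
    (hy : Primrec y) : PrimrecPred fun t => Rel (a t) (g t) (x t) (y t) := by
  have hN : Primrec fun t => a t + g t + 4 := nat_add.comp (nat_add.comp ha hg) (const 4)
  exact ((nat_le.comp (const 2) hy).and ((nat_lt.comp hy hx).and (nat_le.comp hx hN))).or
    (((Primrec.eq.comp hx (const 0)).and ((nat_le.comp (const 2) hy).and
      (nat_le.comp hy (nat_add.comp ha (const 2))))).or
    (((Primrec.eq.comp hy (const 0)).and ((nat_lt.comp (nat_add.comp ha (const 3)) hx).and
      (nat_le.comp hx hN))).or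
    ((Primrec.eq.comp hy (const 1)).and (Primrec.eq.comp hx hN))))

lemma prim_forall_range {n : α → ℕ} {P : α → ℕ → Prop} (hn : Primrec n)
    (hP : PrimrecPred fun t : α × ℕ => P t.1 t.2) :
    PrimrecPred fun t => ∀ y ∈ List.range (n t), P t y := by
  have h : PrimrecRel fun (y : ℕ) (t : α) => P t y :=
    PrimrecPred.primrecRel (p := fun s : ℕ × α => P s.2 s.1) (hP.comp (pair snd fst))
  exact h.forall_mem_list.comp (list_range.comp hn) Primrec.id

lemma prim_forall_lt {n : α → ℕ} {P : α → ℕ → Prop} (hn : Primrec n)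
    (hP : PrimrecPred fun t : α × ℕ => P t.1 t.2) :
    PrimrecPred fun t => ∀ y < n t, P t y :=
  (prim_forall_range hn hP).of_eq fun t => by simp

lemma prim_step {p : α → ℕ × ℕ × ℕ} {T : α → List (List Bool)} {x : α → ℕ} (hp : Primrec p)
    (hT : Primrec T) (hx : Primrec x) : PrimrecPred fun t => Step (p t) (T t) (x t) := by
  have hn : Primrec fun t => (T t).length := list_length.comp hT
  have hm : Primrec fun t => (T t).length - 2 := nat_sub.comp hn (const 2)
  have hr : Primrec fun t => ((T t).length - 2) % 6 := nat_mod.comp hm (const 6)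
  have hk : Primrec fun t => ((T t).length - 2) / 6 := nat_div.comp hm (const 6)
  have hk1 : Primrec fun t => (((T t).length - 2) / 6).unpair.1 := fst.comp (unpair.comp hk)
  have hk2 : Primrec fun t => (((T t).length - 2) / 6).unpair.2 := snd.comp (unpair.comp hk)
  have ha : Primrec fun t => (p t).1 := fst.comp hp
  have hg : Primrec fun t => (p t).2.1 := fst.comp (snd.comp hp)
  have hv : Primrec fun t => (p t).2.2 := snd.comp (snd.comp hp)
  have l1 := prim_look hT hk1 hx
  have l2 := prim_look hT hk2 hx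
  have hb : PrimrecPred fun t => ∀ y ∈ List.range ((p t).1 + (p t).2.1 + 5),
      ¬ Rel (p t).1 (p t).2.1 (x t) y ∨ look (T t) (((T t).length - 2) / 6) y :=
    prim_forall_range (nat_add.comp (nat_add.comp ha hg) (const 5))
      ((prim_rel (ha.comp fst) (hg.comp fst) (hx.comp fst) snd).not.or
        (prim_look (hT.comp fst) (hk.comp fst) snd))
  exact (Primrec.eq.comp hn (const 1)).or ((nat_le.comp (const 2) hn).and
    (((Primrec.eq.comp hr (const 0)).and (prim_val hv hk hx)).or
    (((Primrec.eq.comp hr (const 1)).and (prim_look hT hk hx).not).or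
    (((Primrec.eq.comp hr (const 2)).and hb).or
    (((Primrec.eq.comp hr (const 3)).and (l1.and l2)).or
    (((Primrec.eq.comp hr (const 4)).and (l1.or l2)).or
    ((Primrec.eq.comp hr (const 5)).and (l1.not.or l2))))))))

lemma prim_row : Primrec₂ row := by
  refine nat_strong_rec row (g := fun p T =>
    some ((List.range (p.1 + p.2.1 + 5)).map fun x => decide (Step p T x))) ?_ ?_
  · refine option_some.comp (list_map (f := fun t : (ℕ × ℕ × ℕ) × List (List Bool) =>
      List.range (t.1.1 + t.1.2.1 + 5)) (g := fun t x => decide (Step t.1 t.2 x)) ?_ ?_)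
    · exact list_range.comp (nat_add.comp (nat_add.comp (fst.comp fst)
        (fst.comp (snd.comp fst))) (const 5))
    · exact (prim_step (α := ((ℕ × ℕ × ℕ) × List (List Bool)) × ℕ) (fst.comp fst) (snd.comp fst)
        snd).decide
  · intro p n
    obtain ⟨φ, rfl⟩ := code_surj n
    simp only [row, Option.some.injEq, dec_code]
    refine List.map_congr_left fun x hx => ?_
    rw [List.mem_range] at hx
    exact decide_eq_decide.2 (step_iff p φ hx)

lemma prim_valid {a g n : α → ℕ} (ha : Primrec a) (hg : Primrec g) (hn : Primrec n) :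
    PrimrecPred fun t => Valid (a t) (g t) (dec (n t)) := by
  have h : PrimrecPred fun t => ∀ v < 2 ^ (Nat.pair (n t) (a t + g t + 4) + 1),
      ∀ x < a t + g t + 5, (row (a t, g t, v) (n t)).getD x false = true := by
    refine prim_forall_lt (prim_pow.comp (const 2) (succ.comp (Primrec₂.natPair.comp hn
      (nat_add.comp (nat_add.comp ha hg) (const 4))))) ?_
    refine prim_forall_lt (α := α × ℕ) (n := fun t => a t.1 + g t.1 + 5)
      (P := fun t x => (row (a t.1, g t.1, t.2) (n t.1)).getD x false = true)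
      (nat_add.comp (nat_add.comp (ha.comp fst) (hg.comp fst)) (const 5)) ?_
    exact Primrec.eq.comp ((list_getD false).comp (prim_row.comp
      (pair (ha.comp (fst.comp fst)) (pair (hg.comp (fst.comp fst)) (snd.comp fst)))
      (hn.comp (fst.comp fst))) snd) (const true)
  refine h.of_eq fun t => ?_
  rw [valid_iff, code_dec]
  refine forall_congr' fun v => forall_congr' fun _ => forall_congr' fun x =>
    forall_congr' fun hx => ?_
  have := row_getD (a t, g t, v) (dec (n t)) (x := x) hx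
  rwa [code_dec] at this

theorem log_decidable {H : ℕ → ℕ → Prop} (hH : ∀ c g g', g ≤ g' → H c g → H c g')
    (hp : PrimrecPred fun t : ℕ × ℕ => H t.1 t.2) : IsDecidable (Log (Sel H)) := by
  have h : PrimrecPred fun n : ℕ => ∀ a < 2 * n + 3, ∀ g < 2 * n + 3,
      ¬ Sel H a g ∨ Valid a g (dec n) := by
    have hB : Primrec fun n : ℕ => 2 * n + 3 :=
      nat_add.comp (nat_mul.comp (const 2) Primrec.id) (const 3)
    refine prim_forall_lt hB ?_
    refine prim_forall_lt (α := ℕ × ℕ) (n := fun t => 2 * t.1 + 3)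
      (P := fun t g => ¬ Sel H t.2 g ∨ Valid t.2 g (dec t.1)) (hB.comp fst) ?_
    refine PrimrecPred.or (PrimrecPred.not ?_) (prim_valid (snd.comp fst) snd (fst.comp fst))
    have h1 : PrimrecPred fun t : (ℕ × ℕ) × ℕ => t.2 % 2 = 0 ∧ (¬ t.1.2 % 2 = 1 ∨
        ¬ H (t.1.2 / 2) t.2) :=
      (Primrec.eq.comp (nat_mod.comp snd (const 2)) (const 0)).and
        ((Primrec.eq.comp (nat_mod.comp (snd.comp fst) (const 2)) (const 1)).not.or
          (hp.comp (pair (nat_div.comp (snd.comp fst) (const 2)) snd)).not)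
    exact h1.of_eq fun t => by simp only [Sel, imp_iff_not_or]
  refine h.computablePred.of_eq fun n => ?_
  obtain ⟨φ, rfl⟩ := code_surj n
  rw [dec_code]
  constructor
  · intro h
    exact ⟨φ, (mem_log_iff hH φ).2 fun a ha g hg hS => (h a ha g hg).resolve_left (not_not.2 hS),
      rfl⟩
  · rintro ⟨ψ, hψ, e⟩ a ha g hg
    rw [code_inj _ _ e] at hψ
    by_cases hS : Sel H a g
    · exact Or.inr ((mem_log_iff hH φ).1 hψ a ha g hg hS)
    · exact Or.inl hS

lemma prim_bb : Primrec fun n => (bb n).code := by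
  have h : Primrec fun n : ℕ => (fun k => 6 * k + 4)^[n] 0 :=
    nat_iterate (h := fun _ k => 6 * k + 4) Primrec.id (const 0)
      (nat_add.comp (nat_mul.comp (const 6) snd) (const 4)).to₂
  refine h.of_eq fun n => ?_
  induction n with
  | zero => rfl
  | succ n ih => rw [Function.iterate_succ_apply', ih]; rfl

lemma prim_neg {f : α → Fm} (hf : Primrec fun t => (f t).code) :
    Primrec fun t => (Fm.neg (f t)).code :=
  nat_add.comp (nat_mul.comp (const 6) hf) (const 3)

lemma prim_box {f : α → Fm} (hf : Primrec fun t => (f t).code) :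
    Primrec fun t => (Fm.box (f t)).code :=
  nat_add.comp (nat_mul.comp (const 6) hf) (const 4)

lemma prim_and {f g : α → Fm} (hf : Primrec fun t => (f t).code)
    (hg : Primrec fun t => (g t).code) : Primrec fun t => (Fm.and (f t) (g t)).code :=
  nat_add.comp (nat_mul.comp (const 6) (Primrec₂.natPair.comp hf hg)) (const 5)

lemma prim_hx : Primrec fun n => (hx n).code :=
  prim_and (f := fun n => bb (n + 1)) (prim_bb.comp succ) (prim_neg prim_bb)

lemma prim_two (p : ℕ) : Primrec fun n => (two n p).code :=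
  prim_and (prim_neg (prim_box (prim_neg (prim_and prim_hx (const _)))))
    (prim_neg (prim_box (prim_neg (prim_and prim_hx (const _)))))

lemma prim_alpha (p : ℕ) : Primrec fun a => (alpha a p).code :=
  prim_and (f := fun _ => two 0 p) (g := fun a => two (a + 1) p) (const _) ((prim_two p).comp succ)

end prim

open Nat.Partrec (Code)
open Nat.Partrec.Code

/-- The machine with number `c` has halted on input `0` within `g` steps. -/
def Halt (c g : ℕ) : Prop := (evaln g (Denumerable.ofNat Code c) 0).isSome = true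

lemma halt_mono (c g g' : ℕ) (h : g ≤ g') (hc : Halt c g) : Halt c g' := by
  unfold Halt at *
  obtain ⟨x, hx⟩ := Option.isSome_iff_exists.1 hc
  exact Option.isSome_iff_exists.2 ⟨x, evaln_mono h hx⟩

lemma prim_halt : PrimrecPred fun t : ℕ × ℕ => Halt t.1 t.2 :=
  Primrec.eq.comp (Primrec.option_isSome.comp (primrec_evaln.comp (Primrec.pair
    (Primrec.pair Primrec.snd ((Primrec.ofNat Code).comp Primrec.fst)) (Primrec.const 0))))
    (Primrec.const true)

lemma halt_iff (c : Code) : (eval c 0).Dom ↔ ∃ g, Halt (Encodable.encode c) g := by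
  simp only [Halt, Denumerable.ofNat_encode, Part.dom_iff_mem, evaln_complete,
    Option.isSome_iff_exists]
  exact ⟨fun ⟨x, k, h⟩ => ⟨k, x, h⟩, fun ⟨k, x, h⟩ => ⟨x, k, h⟩⟩

theorem log_iep_undecidable : ¬ IEPDecidable (Log (Sel Halt)) := by
  intro h
  refine ComputablePred.halting_problem 0 (ComputablePred.computable_of_manyOneReducible ?_ h)
  refine ⟨fun c => ((alpha (2 * Encodable.encode c + 1) 0).code, (Fm.neg (alpha 0 1)).code),
    (Primrec.pair ((prim_alpha 0).comp (Primrec.succ.comp (Primrec.nat_mul.comp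
      (Primrec.const 2) Primrec.encode))) (Primrec.const _)).to_comp, fun c => ?_⟩
  refine ((halt_iff c).trans (hasInterpolant_iff halt_mono _).symm).trans ?_
  constructor
  · intro h
    exact ⟨_, _, rfl, rfl, h⟩
  · rintro ⟨φ, ψ, h1, h2, h⟩
    rwa [code_inj _ _ h1, code_inj _ _ h2] at h

end Pool.Agent.MP_400b40_lc

end
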